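import Pool.Agent.Helper185.SierpPow
import Pool.Agent.Helper292.ForceCH

/-!
The five selection classes `S₁(T, Γ)`, `S₁(T, T)`, `S₁(T, Ω)`, `S_fin(T, T)`, `S_fin(T, Ω)`:
under the continuum hypothesis one set of reals belongs to all of them while its square belongs
to none of them; and there is a forcing notion which forces the continuum hypothesis.
-/

namespace Pool.Agent.Results.MP_24a1d9_gt.TauPowersConsistentlyFail

open Pool.Agent.Helper185.Sel Set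

theorem sfin_of_s1 {X : Type*} {A B : Set (Set (Set X))} (h : S1 A B) : Sfin A B := by
  intro U hU
  obtain ⟨V, hV, hr⟩ := h U hU
  refine ⟨fun n => {V n}, fun n => ⟨finite_singleton _, by simpa using hV n⟩, ?_⟩
  have h1 : (⋃ n, ({V n} : Set (Set X))) = range V := by
    ext v
    simp [eq_comm]
  rw [h1]
  exact hr

theorem s1_mono {X : Type*} {A A' B B' : Set (Set (Set X))} (hA : A' ⊆ A) (hB : B ⊆ B')
    (h : S1 A B) : S1 A' B' := by
  intro U hU
  obtain ⟨V, hV, hr⟩ := h U (fun n => hA (hU n))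
  exact ⟨V, hV, hB hr⟩

theorem sfin_mono {X : Type*} {A A' B B' : Set (Set (Set X))} (hA : A' ⊆ A) (hB : B ⊆ B')
    (h : Sfin A B) : Sfin A' B' := by
  intro U hU
  obtain ⟨F, hF, hr⟩ := h U (fun n => hA (hU n))
  exact ⟨F, hF, hB hr⟩

/-- The square of a set of reals in the class `C`, as a space. -/
theorem under_ch (hCH : Cardinal.aleph 1 = Cardinal.continuum.{0}) :
    ∃ X : Set ℝ,
      (S1 (TauOf (OpenFam X)) (GammaOf (OpenFam X)) ∧
        S1 (TauOf (OpenFam X)) (TauOf (OpenFam X)) ∧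
        S1 (TauOf (OpenFam X)) (OmegaOf (OpenFam X)) ∧
        Sfin (TauOf (OpenFam X)) (TauOf (OpenFam X)) ∧
        Sfin (TauOf (OpenFam X)) (OmegaOf (OpenFam X))) ∧
      ¬ S1 (TauOf (OpenFam (Fin 2 → X))) (GammaOf (OpenFam (Fin 2 → X))) ∧
      ¬ S1 (TauOf (OpenFam (Fin 2 → X))) (TauOf (OpenFam (Fin 2 → X))) ∧
      ¬ S1 (TauOf (OpenFam (Fin 2 → X))) (OmegaOf (OpenFam (Fin 2 → X))) ∧
      ¬ Sfin (TauOf (OpenFam (Fin 2 → X))) (TauOf (OpenFam (Fin 2 → X))) ∧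
      ¬ Sfin (TauOf (OpenFam (Fin 2 → X))) (OmegaOf (OpenFam (Fin 2 → X))) := by
  obtain ⟨X, hX, _, hN⟩ := Pool.Agent.Helper185.Sierp.exists_tau_square hCH
  have gt : ∀ (Y : Type) [TopologicalSpace Y],
      GammaOf (OpenFam Y) ⊆ TauOf (OpenFam Y) := fun Y _ => gamma_sub_tau
  have go : ∀ (Y : Type) [TopologicalSpace Y],
      GammaOf (OpenFam Y) ⊆ OmegaOf (OpenFam Y) := by
    intro Y _ U hU
    rcases isEmpty_or_nonempty Y with hY | hY
    · exfalso
      obtain ⟨u, hu⟩ := hU.2.2.1.nonempty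
      exact hU.2.1.2 (by
        have : u = univ := by
          ext y
          exact (hY.false y).elim
        rw [← this]
        exact hu)
    · exact tau_sub_omega (gamma_sub_tau hU)
  have cv : ∀ (Y : Type) [TopologicalSpace Y] (B : Set (Set (Set Y))),
      (∀ U ∈ B, U ∈ OpenFam Y ∧ IsCov U) → B ⊆ CovOf (OpenFam Y) := fun Y _ B h U hU => h U hU
  have key : ∀ B : Set (Set (Set (Fin 2 → X))),
      (∀ U ∈ B, U ∈ OpenFam (Fin 2 → X) ∧ IsCov U) →
      ¬ Sfin (TauOf (OpenFam (Fin 2 → X))) B := by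
    intro B hB h
    exact hN (sfin_mono (gt _) (cv _ B hB) h)
  have hG : ∀ U ∈ GammaOf (OpenFam (Fin 2 → X)), U ∈ OpenFam (Fin 2 → X) ∧ IsCov U :=
    fun U hU => ⟨hU.1, hU.2.1⟩
  have hT : ∀ U ∈ TauOf (OpenFam (Fin 2 → X)), U ∈ OpenFam (Fin 2 → X) ∧ IsCov U :=
    fun U hU => ⟨hU.1, hU.2.1⟩
  have hO : ∀ U ∈ OmegaOf (OpenFam (Fin 2 → X)), U ∈ OpenFam (Fin 2 → X) ∧ IsCov U :=
    fun U hU => ⟨hU.1, hU.2.1⟩
  have h2 := s1_mono subset_rfl (gt X) hX
  have h3 := s1_mono subset_rfl (go X) hX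
  exact ⟨X, ⟨hX, h2, h3, sfin_of_s1 h2, sfin_of_s1 h3⟩,
    fun h => key _ hG (sfin_of_s1 h), fun h => key _ hT (sfin_of_s1 h),
    fun h => key _ hO (sfin_of_s1 h), key _ hT, key _ hO⟩

/-- There is a nonempty forcing notion all of whose conditions force that `ω₁` is preserved and
that the continuum hypothesis holds; and the continuum hypothesis gives a set of reals `X` in all
five classes `S₁(T, Γ)`, `S₁(T, T)`, `S₁(T, Ω)`, `S_fin(T, T)`, `S_fin(T, Ω)` whose square is in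
none of them. -/
theorem result :
    (∃ (P : Type) (_ : Preorder P), Nonempty P ∧ ∀ p : P,
      p ∈ Pool.Agent.Helper292.ForceCH.OmegaOnePreserved P ∧
      p ∈ Pool.Agent.Helper292.ForceCH.CHHolds P) ∧
    (Cardinal.aleph 1 = Cardinal.continuum.{0} →
    ∃ X : Set ℝ,
      (S1 (TauOf (OpenFam X)) (GammaOf (OpenFam X)) ∧
        S1 (TauOf (OpenFam X)) (TauOf (OpenFam X)) ∧
        S1 (TauOf (OpenFam X)) (OmegaOf (OpenFam X)) ∧
        Sfin (TauOf (OpenFam X)) (TauOf (OpenFam X)) ∧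
        Sfin (TauOf (OpenFam X)) (OmegaOf (OpenFam X))) ∧
      ¬ S1 (TauOf (OpenFam (Fin 2 → X))) (GammaOf (OpenFam (Fin 2 → X))) ∧
      ¬ S1 (TauOf (OpenFam (Fin 2 → X))) (TauOf (OpenFam (Fin 2 → X))) ∧
      ¬ S1 (TauOf (OpenFam (Fin 2 → X))) (OmegaOf (OpenFam (Fin 2 → X))) ∧
      ¬ Sfin (TauOf (OpenFam (Fin 2 → X))) (TauOf (OpenFam (Fin 2 → X))) ∧
      ¬ Sfin (TauOf (OpenFam (Fin 2 → X))) (OmegaOf (OpenFam (Fin 2 → X)))) := by
  refine ⟨?_, under_ch⟩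
  obtain ⟨P, i, h1, h2⟩ := Pool.Agent.Helper292.ForceCH.exists_forcing
  exact ⟨P, i, h1, fun p => ⟨(h2 p).1, (h2 p).2.2⟩⟩

end Pool.Agent.Results.MP_24a1d9_gt.TauPowersConsistentlyFail
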